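import Mathlib
import Pool.Agent.Helper126.Lam.Forc
import Pool.Agent.W876.Prox.Defs
import Pool.Agent.W876.Prox.Main
import Pool.Agent.W876.Prox.Fail
import Pool.Agent.W876.Prox.Book

/-!
# The hitting parameter of the proxy principle cannot be raised

There is a forcing notion with the countable chain condition such that in the extension the
principle `P⁻ (ω₁, 2, ^ΩR, 1, {ω₁}, 2)` holds and `P⁻ (ω₁, 2, ^ΩR, θ, {ω₁}, 2)` fails for every
infinite `θ`, for every relation `R` and every class `Ω` containing the limit ordinals.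
-/

namespace Pool.Agent.Results.MP_508052_lc.ThetaNotRaised

open Cardinal Pool.Agent.Helper126.Lam.Forc Pool.Agent.W876.Prox.Defs

/-- The countable chain condition: pairwise incompatible conditions form a countable set. -/
def CCC (P : Type) [Preorder P] : Prop :=
  ∀ A : Set P, (∀ a ∈ A, ∀ b ∈ A, (∃ s, s ≤ a ∧ s ≤ b) → a = b) → A.Countable

/-- Every uncountable cardinal of the ground model is a cardinal of the extension: no function
from a set of smaller ground model cardinality `μ` to `ν` is onto. -/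
def CardinalsPreserved (P : Type) [Preorder P] : Set P :=
  fall fun μ : Cardinal.{0} => fall fun ν : Cardinal.{0} => fall fun _ : μ < ν =>
    fall fun _ : ℵ₀ < ν =>
      fnot (fex fun R : μ.out → ν.out → Set P =>
        fand (IsFun R) (fall fun y => fex fun x => meets (R x y)))

theorem result :
    ∃ (P : Type) (_ : Preorder P), Nonempty P ∧ CCC P ∧ (∀ p : P, p ∈ CardinalsPreserved P) ∧
      ∀ (Rel : K1 → K1 → (K1 → Set P) → (K1 → Set P) → Set P) (Ω : Set K1),
        (∀ α : K1, Order.IsSuccLimit α → α ∈ Ω) → ∀ p : P,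
          p ∈ Proxy Rel Ω 1 ∧
            ∀ θ : Ordinal.{0}, Ordinal.omega0 ≤ θ → p ∈ fnot (Proxy Rel Ω θ) := by
  obtain ⟨g, hg⟩ := Pool.Agent.W876.Prox.Book.exists_book
  have hne : Nonempty Pool.Agent.W876.Prox.Book.Len := by
    rw [← mk_ne_zero_iff, Pool.Agent.W876.Prox.Book.mk_Len]
    exact (aleph0_pos.trans_le ((aleph0_le_aleph 1).trans (cantor _).le)).ne'
  obtain ⟨j0, _, hj0'⟩ := WellFounded.has_min
    (wellFounded_lt (α := Pool.Agent.W876.Prox.Book.Len)) Set.univ Set.univ_nonempty
  have hj0 : ∀ i, j0 ≤ i := fun i => not_lt.1 (hj0' i trivial)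
  refine ⟨Pool.Agent.W876.Prox.Poset.Cd g, inferInstance, inferInstance, ?_, ?_, ?_⟩
  · intro A hA
    by_contra hcon
    obtain ⟨a, b, hab, s, hs1, hs2⟩ := Pool.Agent.W876.Prox.Main.cond_ccc hj0
      (fun a : A => (a : Pool.Agent.W876.Prox.Poset.Cd g)) hcon
    exact hab (Subtype.ext (hA a a.2 b b.2 ⟨s, hs1, hs2⟩))
  · intro p μ ν hμν hν
    exact Pool.Agent.W876.Prox.Book.not_onto hj0 (by simpa using hμν) (by simpa using hν) p
  · intro Rel Ω hΩ p
    exact ⟨Pool.Agent.W876.Prox.Main.proxy_one hj0 Rel Ω p, fun θ hθ =>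
      Pool.Agent.W876.Prox.Fail.not_proxy hj0 Pool.Agent.W876.Prox.Book.len_cof hg Rel hΩ hθ p⟩

end Pool.Agent.Results.MP_508052_lc.ThetaNotRaised
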